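import Mathlib

/-!
# Hybrid logic with `◇`, `□`, `↓` over a disjunctive clone

Let `B` be a finite set of Boolean functions with `[B] = V = [{∨, 0, 1}]`. A formula `φ` of the
language `({◇, □, ↓}, B)` is satisfiable in a model over a frame of a class `𝔉` if and only if
`eval φ = true`, where `eval` is the evaluation of `φ` as a Boolean formula in which `◇` and `↓` are
deleted and every atom, nominal, state variable and every subformula `□ψ` gets the value `1`. This
holds for every class which contains the reflexive point and the finite strict chains, so for the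
class of all frames and for the class of all transitive frames.

The complexity: one first-order sentence defines the satisfiable formulas among all syntax trees
(nodes with their labels and the relations `y is below the j-th argument of x`), so the problem is
in `AC⁰`. If no connective has an inessential argument (for instance `B = {∨, 0, 1}`), then `φ` is
satisfiable if and only if a good letter occurs in the word of `φ`: one gate `OR` decides the
problem.
-/

set_option autoImplicit false

namespace Pool.Agent.H672.HL

/-- A family of Boolean functions: `fn i` is a function of arity `ar i`. -/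
structure Base (ι : Type) where
  /-- arities -/
  ar : ι → ℕ
  /-- functions -/
  fn : (i : ι) → (Fin (ar i) → Bool) → Bool

/-- The functions of arity `n` in the clone generated by the family `B`. -/
inductive Clone {ι : Type} (B : Base ι) (n : ℕ) : ((Fin n → Bool) → Bool) → Prop
  | proj (j : Fin n) : Clone B n fun x => x j
  | comp (i : ι) (g : Fin (B.ar i) → (Fin n → Bool) → Bool) (h : ∀ j, Clone B n (g j)) :
      Clone B n fun x => B.fn i fun j => g j x

/-- names for the functions `∨`, `0`, `1` -/
inductive VSym
  | or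
  | zero
  | one

/-- the arities of `∨`, `0`, `1` -/
def vAr : VSym → ℕ
  | .or => 2
  | .zero => 0
  | .one => 0

/-- the functions `∨`, `0`, `1` -/
def vFn : (s : VSym) → (Fin (vAr s) → Bool) → Bool
  | .or => fun x => x (0 : Fin 2) || x (1 : Fin 2)
  | .zero => fun _ => false
  | .one => fun _ => true

/-- the family `{∨, 0, 1}` -/
def vBase : Base VSym where
  ar := vAr
  fn := vFn

/-- `[B] = V`: the clones of `B` and of `{∨, 0, 1}` have the same functions of positive arity. -/
def IsV {ι : Type} (B : Base ι) : Prop :=
  ∀ n : ℕ, 1 ≤ n → ∀ f : (Fin n → Bool) → Bool, Clone B n f ↔ Clone vBase n f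

/-- The formulas of the language `({◇, □, ↓}, B)`: atoms, nominals, state variables, applications of
the functions in `B`, `◇φ`, `□φ` and `↓x.φ`. -/
inductive Fm {ι : Type} (B : Base ι) : Type
  | atom (k : ℕ) : Fm B
  | nom (k : ℕ) : Fm B
  | svar (k : ℕ) : Fm B
  | app (i : ι) (a : Fin (B.ar i) → Fm B) : Fm B
  | dia (φ : Fm B) : Fm B
  | box (φ : Fm B) : Fm B
  | bind (k : ℕ) (φ : Fm B) : Fm B

/-- Hybrid Kripke models; the nominal `k` is true exactly at the state `N k`. -/
structure Model where
  /-- states -/
  W : Type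
  /-- accessibility -/
  R : W → W → Prop
  /-- atoms -/
  V : ℕ → W → Prop
  /-- nominals -/
  N : ℕ → W

open Classical in
/-- `Holds M φ g w`: the formula `φ` is true at the state `w` under the assignment `g`. -/
noncomputable def Holds {ι : Type} {B : Base ι} (M : Model) : Fm B → (ℕ → M.W) → M.W → Prop
  | .atom k => fun _ w => M.V k w
  | .nom k => fun _ w => w = M.N k
  | .svar k => fun g w => w = g k
  | .app i a => fun g w => B.fn i (fun j => decide (Holds M (a j) g w)) = true
  | .dia φ => fun g w => ∃ v, M.R w v ∧ Holds M φ g v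
  | .box φ => fun g w => ∀ v, M.R w v → Holds M φ g v
  | .bind k φ => fun g w => Holds M φ (Function.update g k w) w

/-- `φ` is true at some state of some model over a frame in `𝔉`, under some assignment. -/
def SatIn {ι : Type} {B : Base ι} (𝔉 : (W : Type) → (W → W → Prop) → Prop) (φ : Fm B) : Prop :=
  ∃ (M : Model) (g : ℕ → M.W) (w : M.W), 𝔉 M.W M.R ∧ Holds M φ g w

/-- satisfiability over all frames -/
def SAT {ι : Type} {B : Base ι} (φ : Fm B) : Prop := SatIn (fun _ _ => True) φ

/-- satisfiability over transitive frames -/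
def TransSAT {ι : Type} {B : Base ι} (φ : Fm B) : Prop :=
  SatIn (fun _ R => ∀ x y z, R x y → R y z → R x z) φ

/-- Evaluation as a Boolean formula: `◇` and `↓` are deleted; atoms, nominals, state variables and
all formulas `□ψ` have the value `1`. -/
def eval {ι : Type} {B : Base ι} : Fm B → Bool
  | .atom _ => true
  | .nom _ => true
  | .svar _ => true
  | .app i a => B.fn i fun j => eval (a j)
  | .dia φ => eval φ
  | .box _ => true
  | .bind _ φ => eval φ

/-- The function `f` depends on its argument `j`. -/
def Essential {n : ℕ} (f : (Fin n → Bool) → Bool) (j : Fin n) : Prop :=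
  ∃ x y : Fin n → Bool, (∀ k, k ≠ j → x k = y k) ∧ f x ≠ f y

/-- the finite alphabet: connectives, the letters which announce an atom, a nominal, a state
variable, the operators, two digits and a separator -/
inductive Letter (ι : Type)
  | con (i : ι)
  | atom
  | nom
  | svar
  | dia
  | box
  | bind
  | digit (b : Bool)
  | sep

/-- a number in binary, with a separator at the end -/
def number {ι : Type} (k : ℕ) : List (Letter ι) := (Nat.bits k).map Letter.digit ++ [Letter.sep]

/-- a formula in prefix notation, as a word over the finite alphabet -/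
def word {ι : Type} {B : Base ι} : Fm B → List (Letter ι)
  | .atom k => .atom :: number k
  | .nom k => .nom :: number k
  | .svar k => .svar :: number k
  | .app i a => .con i :: (List.ofFn fun j => word (a j)).flatten
  | .dia φ => .dia :: word φ
  | .box φ => .box :: word φ
  | .bind k φ => .bind :: (number k ++ word φ)

/-- The good letters: those of atoms, nominals, state variables, `□`, and the connectives with
value `1` at `(0, …, 0)`. -/
def GoodLetter {ι : Type} (B : Base ι) : Letter ι → Prop
  | .con i => B.fn i (fun _ => false) = true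
  | .atom => True
  | .nom => True
  | .svar => True
  | .dia => False
  | .box => True
  | .bind => False
  | .digit _ => False
  | .sep => False

/-- `Through B a j`: the letter `a` is `◇`, `□`, `↓` or a connective which depends on its argument
`j`. -/
def Through {ι : Type} (B : Base ι) : Letter ι → ℕ → Prop
  | .con i, j => ∃ h : j < B.ar i, Essential (B.fn i) ⟨j, h⟩
  | .dia, _ => True
  | .box, _ => True
  | .bind, _ => True
  | _, _ => False

/-- the label of the root of the syntax tree -/
def root {ι : Type} {B : Base ι} : Fm B → Letter ι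
  | .atom _ => .atom
  | .nom _ => .nom
  | .svar _ => .svar
  | .app i _ => .con i
  | .dia _ => .dia
  | .box _ => .box
  | .bind _ _ => .bind

/-- the argument with the number `j` -/
def child {ι : Type} {B : Base ι} : Fm B → ℕ → Option (Fm B)
  | .app i a, j => if h : j < B.ar i then some (a ⟨j, h⟩) else none
  | .dia φ, 0 => some φ
  | .box φ, 0 => some φ
  | .bind _ φ, 0 => some φ
  | _, _ => none

/-- the subformula at a node of the syntax tree; a node is a list of numbers of arguments -/
def node {ι : Type} {B : Base ι} : Fm B → List ℕ → Option (Fm B)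
  | φ, [] => some φ
  | φ, j :: p => (child φ j).bind fun ψ => node ψ p

/-- the nodes of the syntax tree -/
def Tree {ι : Type} {B : Base ι} (φ : Fm B) : Type := {p : List ℕ // (node φ p).isSome}

/-- relation symbols for syntax trees: labels, and `y is below the j-th argument of x` -/
inductive TreeRel (ι : Type) : ℕ → Type
  | lab (a : Letter ι) : TreeRel ι 1
  | below (j : ℕ) : TreeRel ι 2

/-- the first-order language of syntax trees -/
def treeLang (ι : Type) : FirstOrder.Language where
  Functions := fun _ => Empty
  Relations := TreeRel ι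

/-- the meaning of the relation symbols -/
def treeMap {ι : Type} {B : Base ι} (φ : Fm B) : {n : ℕ} → TreeRel ι n → (Fin n → Tree φ) → Prop
  | _, .lab a, v => ∃ ψ, node φ (v (0 : Fin 1)).1 = some ψ ∧ root ψ = a
  | _, .below j, v => ∃ r, (v (1 : Fin 2)).1 = (v (0 : Fin 2)).1 ++ j :: r

/-- the syntax tree of a formula as a first-order structure -/
instance treeStructure {ι : Type} {B : Base ι} (φ : Fm B) : (treeLang ι).Structure (Tree φ) where
  funMap := fun f => f.elim
  RelMap := treeMap φ

/-! ## Disjunctions -/

/-- constant or a disjunction of some of the arguments -/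
def VForm {n : ℕ} (f : (Fin n → Bool) → Bool) : Prop :=
  ∃ (c : Bool) (S : Finset (Fin n)), ∀ x, f x = true ↔ (c = true ∨ ∃ j ∈ S, x j = true)

theorem vform_clone {n : ℕ} {f : (Fin n → Bool) → Bool} (h : Clone vBase n f) : VForm f := by
  induction h with
  | proj j => exact ⟨false, {j}, fun x => by simp⟩
  | comp i g _ ih =>
    match i, g, ih with
    | .or, g, ih =>
      obtain ⟨c0, S0, h0⟩ := ih (0 : Fin 2)
      obtain ⟨c1, S1, h1⟩ := ih (1 : Fin 2)
      refine ⟨c0 || c1, S0 ∪ S1, fun x => ?_⟩
      change (g (0 : Fin 2) x || g (1 : Fin 2) x) = true ↔ _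
      rw [Bool.or_eq_true, h0, h1, Bool.or_eq_true]
      constructor
      · rintro ((h | ⟨j, hj, hx⟩) | (h | ⟨j, hj, hx⟩))
        · exact Or.inl (Or.inl h)
        · exact Or.inr ⟨j, Finset.mem_union_left _ hj, hx⟩
        · exact Or.inl (Or.inr h)
        · exact Or.inr ⟨j, Finset.mem_union_right _ hj, hx⟩
      · rintro ((h | h) | ⟨j, hj, hx⟩)
        · exact Or.inl (Or.inl h)
        · exact Or.inr (Or.inl h)
        · rcases Finset.mem_union.1 hj with hj | hj
          · exact Or.inl (Or.inr ⟨j, hj, hx⟩)
          · exact Or.inr (Or.inr ⟨j, hj, hx⟩)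
    | .zero, g, ih =>
      refine ⟨false, ∅, fun x => ?_⟩
      change false = true ↔ _
      simp
    | .one, g, ih =>
      refine ⟨true, ∅, fun x => ?_⟩
      change true = true ↔ _
      simp

theorem vform_fn {ι : Type} {B : Base ι} (hB : IsV B) (i : ι) : VForm (B.fn i) := by
  rcases Nat.eq_zero_or_pos (B.ar i) with h | h
  · refine ⟨B.fn i (fun _ => false), ∅, fun x => ?_⟩
    have hx : x = fun _ => false := by
      funext j
      exact absurd j.2 (by omega)
    rw [hx]
    simp
  · exact vform_clone ((hB (B.ar i) h (B.fn i)).1 (Clone.comp i (fun j x => x j) fun j =>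
      Clone.proj j))

theorem VForm.cases {n : ℕ} {f : (Fin n → Bool) → Bool} (hf : VForm f) {x : Fin n → Bool}
    (hx : f x = true) : f (fun _ => false) = true ∨ ∃ j, Essential f j ∧ x j = true := by
  obtain ⟨c, S, h⟩ := hf
  rcases (h x).1 hx with hc | ⟨j, hj, hxj⟩
  · exact Or.inl ((h _).2 (Or.inl hc))
  · by_cases h0 : f (fun _ => false) = true
    · exact Or.inl h0
    · refine Or.inr ⟨j, ⟨fun _ => false, Function.update (fun _ => false) j true, ?_, ?_⟩, hxj⟩
      · intro k hk
        rw [Function.update_of_ne hk]
      · intro heq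
        apply h0
        rw [heq]
        exact (h _).2 (Or.inr ⟨j, hj, Function.update_self ..⟩)

theorem VForm.zero {n : ℕ} {f : (Fin n → Bool) → Bool} (hf : VForm f)
    (h0 : f (fun _ => false) = true) (x : Fin n → Bool) : f x = true := by
  obtain ⟨c, S, h⟩ := hf
  rcases (h _).1 h0 with hc | ⟨j, _, hj⟩
  · exact (h x).2 (Or.inl hc)
  · exact absurd hj (by simp)

theorem VForm.arg {n : ℕ} {f : (Fin n → Bool) → Bool} (hf : VForm f) {j : Fin n}
    (hj : Essential f j) {x : Fin n → Bool} (hx : x j = true) : f x = true := by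
  obtain ⟨c, S, h⟩ := hf
  obtain ⟨y, z, hyz, hne⟩ := hj
  by_cases hS : j ∈ S
  · exact (h x).2 (Or.inr ⟨j, hS, hx⟩)
  · exfalso
    apply hne
    have key : ∀ a b : Fin n → Bool, (∀ k, k ≠ j → a k = b k) → f a = true → f b = true := by
      intro a b hab ha
      rcases (h a).1 ha with hc | ⟨k, hk, hak⟩
      · exact (h b).2 (Or.inl hc)
      · have hkj : k ≠ j := fun he => hS (he ▸ hk)
        exact (h b).2 (Or.inr ⟨k, hk, (hab k hkj).symm.trans hak⟩)
    have h1 := key y z hyz
    have h2 := key z y fun k hk => (hyz k hk).symm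
    cases hy : f y <;> cases hz : f z
    · rfl
    · exact (h2 hz).symm.trans hy |>.symm ▸ rfl
    · exact (h1 hy).symm.trans hz |>.symm ▸ rfl
    · rfl

/-! ## Semantics -/

open Classical in
theorem eval_of_holds {ι : Type} {B : Base ι} (hB : IsV B) (M : Model) :
    ∀ (φ : Fm B) (g : ℕ → M.W) (w : M.W), Holds M φ g w → eval φ = true := by
  intro φ
  induction φ with
  | atom k => exact fun _ _ _ => rfl
  | nom k => exact fun _ _ _ => rfl
  | svar k => exact fun _ _ _ => rfl
  | app i a ih =>
    intro g w h
    simp only [Holds] at h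
    simp only [eval]
    have hv := vform_fn hB i
    rcases hv.cases h with h0 | ⟨j, hj, hx⟩
    · exact hv.zero h0 _
    · exact hv.arg hj (ih j g w (of_decide_eq_true hx))
  | dia φ ih =>
    rintro g w ⟨v, _, hv⟩
    exact ih g v hv
  | box φ _ => exact fun _ _ _ => rfl
  | bind k φ ih =>
    intro g w h
    exact ih _ w h

/-- the reflexive point -/
def reflM : Model where
  W := Unit
  R := fun _ _ => True
  V := fun _ _ => True
  N := fun _ => ()

/-- the strict chain with `n + 1` states, `0` is the dead end -/
def chainM (n : ℕ) : Model where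
  W := Fin (n + 1)
  R := fun a b => b < a
  V := fun _ _ => True
  N := fun _ => 0

open Classical in
theorem holds_of_eval {ι : Type} {B : Base ι} (hB : IsV B) :
    ∀ φ : Fm B, eval φ = true → (∀ g : ℕ → Unit, Holds reflM φ g ()) ∨
      ∃ k : ℕ, ∀ n : ℕ, k ≤ n → ∀ (g : ℕ → Fin (n + 1)) (w : Fin (n + 1)), w.1 = k →
        Holds (chainM n) φ g w := by
  intro φ
  induction φ with
  | atom k => exact fun _ => Or.inl fun _ => trivial
  | nom k => exact fun _ => Or.inl fun _ => rfl
  | svar k => exact fun _ => Or.inl fun _ => rfl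
  | app i a ih =>
    intro h
    simp only [eval] at h
    have hv := vform_fn hB i
    rcases hv.cases h with h0 | ⟨j, hj, hx⟩
    · exact Or.inl fun g => hv.zero h0 _
    · rcases ih j hx with h1 | ⟨k, h1⟩
      · exact Or.inl fun g => hv.arg hj (decide_eq_true (h1 g))
      · exact Or.inr ⟨k, fun n hn g w hw => hv.arg hj (decide_eq_true (h1 n hn g w hw))⟩
  | dia φ ih =>
    intro h
    rcases ih h with h1 | ⟨k, h1⟩
    · exact Or.inl fun g => ⟨(), trivial, h1 g⟩
    · refine Or.inr ⟨k + 1, fun n hn g w hw => ⟨⟨k, by omega⟩, ?_, h1 n (by omega) g _ rfl⟩⟩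
      change (⟨k, by omega⟩ : Fin (n + 1)) < w
      rw [Fin.lt_def, hw]
      exact Nat.lt_succ_self k
  | box φ _ =>
    have aux : ∀ (n : ℕ) (v w : Fin (n + 1)), w.1 = 0 → ¬ v < w := by
      intro n v w hw hv
      rw [Fin.lt_def, hw] at hv
      exact Nat.not_lt_zero _ hv
    exact fun _ => Or.inr ⟨0, fun n _ g w hw v hv => (aux n v w hw hv).elim⟩
  | bind k φ ih =>
    intro h
    rcases ih h with h1 | ⟨l, h1⟩
    · exact Or.inl fun g => h1 _
    · exact Or.inr ⟨l, fun n hn g w hw => h1 n hn _ w hw⟩

theorem satIn_iff {ι : Type} {B : Base ι} (hB : IsV B) {𝔉 : (W : Type) → (W → W → Prop) → Prop}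
    (h1 : 𝔉 Unit fun _ _ => True) (h2 : ∀ n : ℕ, 𝔉 (Fin (n + 1)) fun a b => b < a) (φ : Fm B) :
    SatIn 𝔉 φ ↔ eval φ = true := by
  constructor
  · rintro ⟨M, g, w, _, h⟩
    exact eval_of_holds hB M φ g w h
  · intro h
    rcases holds_of_eval hB φ h with h' | ⟨k, h'⟩
    · exact ⟨reflM, fun _ => (), (), h1, h' _⟩
    · exact ⟨chainM k, fun _ => (0 : Fin (k + 1)), Fin.last k, h2 k, h' k le_rfl _ _ rfl⟩

/-! ## Paths -/

/-- a path to a node with a good label, which leaves connectives through essential arguments -/
def PathTo {ι : Type} {B : Base ι} (φ : Fm B) : Prop :=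
  ∃ (p : List ℕ) (ψ : Fm B), node φ p = some ψ ∧ GoodLetter B (root ψ) ∧
    ∀ (q : List ℕ) (j : ℕ) (r : List ℕ), p = q ++ j :: r →
      ∀ χ, node φ q = some χ → Through B (root χ) j

theorem pathTo_nil {ι : Type} {B : Base ι} (φ : Fm B) (h : GoodLetter B (root φ)) : PathTo φ :=
  ⟨[], φ, rfl, h, fun q j r h => by simp at h⟩

theorem pathTo_cons {ι : Type} {B : Base ι} (φ χ : Fm B) (j : ℕ) (hj : child φ j = some χ)
    (ht : Through B (root φ) j) (h : PathTo χ) : PathTo φ := by
  obtain ⟨p, ψ, hp, hψ, hq⟩ := h
  refine ⟨j :: p, ψ, ?_, hψ, ?_⟩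
  · simp only [node, hj, Option.bind_some]
    exact hp
  · rintro (_ | ⟨l, q⟩) m r he θ hθ
    · simp only [List.nil_append, List.cons.injEq] at he
      simp only [node, Option.some.injEq] at hθ
      rw [← hθ, ← he.1]
      exact ht
    · simp only [List.cons_append, List.cons.injEq] at he
      rw [← he.1] at hθ
      simp only [node, hj, Option.bind_some] at hθ
      exact hq q m r he.2 θ hθ

theorem eval_iff_path {ι : Type} {B : Base ι} (hB : IsV B) (φ : Fm B) :
    eval φ = true ↔ PathTo φ := by
  constructor
  · induction φ with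
    | atom k => exact fun _ => pathTo_nil _ trivial
    | nom k => exact fun _ => pathTo_nil _ trivial
    | svar k => exact fun _ => pathTo_nil _ trivial
    | box φ _ => exact fun _ => pathTo_nil _ trivial
    | app i a ih =>
      intro h
      simp only [eval] at h
      have hv := vform_fn hB i
      rcases hv.cases h with h0 | ⟨j, hj, hx⟩
      · exact pathTo_nil _ h0
      · exact pathTo_cons _ (a j) j.1 (by simp only [child, j.2, dif_pos]) ⟨j.2, hj⟩ (ih j hx)
    | dia φ ih => exact fun h => pathTo_cons _ φ 0 rfl trivial (ih h)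
    | bind k φ ih => exact fun h => pathTo_cons _ φ 0 rfl trivial (ih h)
  · rintro ⟨p, ψ, hp, hψ, hq⟩
    induction p generalizing φ with
    | nil =>
      simp only [node, Option.some.injEq] at hp
      subst hp
      cases φ with
      | atom k => rfl
      | nom k => rfl
      | svar k => rfl
      | app i a => exact (vform_fn hB i).zero hψ _
      | dia φ => exact hψ.elim
      | box φ => rfl
      | bind k φ => exact hψ.elim
    | cons j p ih =>
      have hj := hq [] j p rfl φ rfl
      simp only [node, Option.bind_eq_some_iff] at hp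
      obtain ⟨χ, hχ, hp⟩ := hp
      have key : eval χ = true := by
        refine ih χ hp ?_
        intro q m r he θ hθ
        refine hq (j :: q) m r (by rw [he]; rfl) θ ?_
        simp only [node, hχ, Option.bind_some]
        exact hθ
      cases φ with
      | atom k => exact hj.elim
      | nom k => exact hj.elim
      | svar k => exact hj.elim
      | app i a =>
        obtain ⟨hlt, hess⟩ := hj
        simp only [child, hlt, dif_pos, Option.some.injEq] at hχ
        refine (vform_fn hB i).arg hess ?_
        rw [hχ]
        exact key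
      | dia φ =>
        cases j with
        | zero =>
          simp only [child, Option.some.injEq] at hχ
          rw [← hχ] at key
          exact key
        | succ j => simp [child] at hχ
      | box φ => rfl
      | bind k φ =>
        cases j with
        | zero =>
          simp only [child, Option.some.injEq] at hχ
          rw [← hχ] at key
          exact key
        | succ j => simp [child] at hχ

/-! ## The first-order sentence -/

theorem node_append {ι : Type} {B : Base ι} (φ : Fm B) (q p : List ℕ) :
    node φ (q ++ p) = (node φ q).bind fun χ => node χ p := by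
  induction q generalizing φ with
  | nil => rfl
  | cons j q ih =>
    simp only [List.cons_append, node]
    rw [Option.bind_assoc]
    congr 1
    funext ψ
    exact ih ψ

/-- the letters are finitely many -/
def code {ι : Type} : Letter ι → ι ⊕ Fin 9
  | .con i => .inl i
  | .atom => .inr 0
  | .nom => .inr 1
  | .svar => .inr 2
  | .dia => .inr 3
  | .box => .inr 4
  | .bind => .inr 5
  | .digit true => .inr 6
  | .digit false => .inr 7
  | .sep => .inr 8

theorem code_injective {ι : Type} : Function.Injective (code : Letter ι → ι ⊕ Fin 9) := by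
  intro a b h
  rcases a with i | _ | _ | _ | _ | _ | _ | (_ | _) | _ <;>
    rcases b with i' | _ | _ | _ | _ | _ | _ | (_ | _) | _ <;>
    simp_all [code]

theorem finite_letter (ι : Type) [Finite ι] : Finite (Letter ι) :=
  Finite.of_injective _ code_injective

open FirstOrder FirstOrder.Language in
theorem exists_sentence {ι : Type} [Finite ι] (B : Base ι) (hB : IsV B) :
    ∃ θ : (treeLang ι).Sentence, ∀ φ : Fm B, eval φ = true ↔ Tree φ ⊨ θ := by
  have hfin := finite_letter ι
  obtain ⟨N, hN⟩ : ∃ N : ℕ, 1 ≤ N ∧ ∀ i, B.ar i ≤ N := by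
    obtain ⟨M, hM⟩ := (Set.finite_range B.ar).bddAbove
    exact ⟨M + 1, by omega, fun i => (hM ⟨i, rfl⟩).trans (Nat.le_succ M)⟩
  let good : (treeLang ι).BoundedFormula Empty 1 :=
    BoundedFormula.iSup fun a : {a : Letter ι // GoodLetter B a} =>
      Relations.boundedFormula₁ (L := treeLang ι) (TreeRel.lab a.1) (&0)
  let thr : (treeLang ι).BoundedFormula Empty 2 :=
    BoundedFormula.iInf fun j : Fin N =>
      (Relations.boundedFormula₂ (L := treeLang ι) (TreeRel.below j.1) (&1) (&0)).imp
        (BoundedFormula.iSup fun a : {a : Letter ι // Through B a j.1} =>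
          Relations.boundedFormula₁ (L := treeLang ι) (TreeRel.lab a.1) (&1))
  refine ⟨(good ⊓ thr.all).ex, fun φ => ?_⟩
  rw [eval_iff_path hB φ]
  have h1 : (Tree φ ⊨ (good ⊓ thr.all).ex) ↔ ∃ x : Tree φ,
      (∃ a : {a : Letter ι // GoodLetter B a}, ∃ ψ, node φ x.1 = some ψ ∧ root ψ = a.1) ∧
      ∀ y : Tree φ, ∀ j : Fin N, (∃ r, x.1 = y.1 ++ j.1 :: r) →
        ∃ a : {a : Letter ι // Through B a j.1}, ∃ ψ, node φ y.1 = some ψ ∧ root ψ = a.1 := by
    simp only [Sentence.Realize, Formula.Realize, good, thr, BoundedFormula.realize_ex,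
      BoundedFormula.realize_inf, BoundedFormula.realize_all, BoundedFormula.realize_iSup,
      BoundedFormula.realize_iInf, BoundedFormula.realize_imp]
    rfl
  rw [h1]
  constructor
  · rintro ⟨p, ψ, hp, hψ, hq⟩
    refine ⟨⟨p, by rw [hp]; rfl⟩, ⟨⟨root ψ, hψ⟩, ψ, hp, rfl⟩, ?_⟩
    rintro y j ⟨r, hr⟩
    obtain ⟨χ, hχ⟩ := Option.isSome_iff_exists.1 y.2
    exact ⟨⟨root χ, hq y.1 j.1 r hr χ hχ⟩, χ, hχ, rfl⟩
  · rintro ⟨x, ⟨⟨a, ha⟩, ψ, hψ, hra⟩, hy⟩
    refine ⟨x.1, ψ, hψ, by rw [hra]; exact ha, ?_⟩
    intro q j r he χ hχ
    have h2 : node φ x.1 = (node φ q).bind fun χ => node χ (j :: r) := by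
      rw [he, node_append]
    rw [hψ, hχ, Option.bind_some] at h2
    have h3 := h2.symm
    simp only [node, Option.bind_eq_some_iff] at h3
    obtain ⟨ω, hω, _⟩ := h3
    have hj : j < N := by
      cases χ with
      | atom k => simp [child] at hω
      | nom k => simp [child] at hω
      | svar k => simp [child] at hω
      | app i a =>
        by_contra hcon
        have : ¬ j < B.ar i := fun h => hcon (h.trans_le (hN.2 i))
        simp [child, this] at hω
      | dia χ =>
        cases j with
        | zero => exact hN.1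
        | succ j => simp [child] at hω
      | box χ =>
        cases j with
        | zero => exact hN.1
        | succ j => simp [child] at hω
      | bind k χ =>
        cases j with
        | zero => exact hN.1
        | succ j => simp [child] at hω
    obtain ⟨⟨b, hb⟩, ψ', hψ', hrb⟩ := hy ⟨q, by rw [hχ]; rfl⟩ ⟨j, hj⟩ ⟨r, he⟩
    have h4 : ψ' = χ := by
      have h5 : node φ q = some ψ' := hψ'
      rw [hχ] at h5
      exact (Option.some.inj h5).symm
    rw [← h4, hrb]
    exact hb

/-! ## Words -/

theorem number_good {ι : Type} (B : Base ι) (k : ℕ) (l : Letter ι) (h : l ∈ number k) :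
    ¬ GoodLetter B l := by
  unfold number at h
  rw [List.mem_append, List.mem_map, List.mem_singleton] at h
  rcases h with ⟨b, _, rfl⟩ | rfl
  · exact id
  · exact id

theorem eval_iff_word {ι : Type} {B : Base ι} (hB : IsV B)
    (hE : ∀ i, (∀ j, Essential (B.fn i) j) ∨ B.fn i (fun _ => false) = true) (φ : Fm B) :
    eval φ = true ↔ ∃ l ∈ word φ, GoodLetter B l := by
  induction φ with
  | atom k => exact ⟨fun _ => ⟨.atom, List.mem_cons_self .., trivial⟩, fun _ => rfl⟩
  | nom k => exact ⟨fun _ => ⟨.nom, List.mem_cons_self .., trivial⟩, fun _ => rfl⟩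
  | svar k => exact ⟨fun _ => ⟨.svar, List.mem_cons_self .., trivial⟩, fun _ => rfl⟩
  | app i a ih =>
    have hv := vform_fn hB i
    simp only [eval, word]
    constructor
    · intro h
      rcases hv.cases h with h0 | ⟨j, _, hx⟩
      · exact ⟨.con i, List.mem_cons_self .., h0⟩
      · obtain ⟨l, hl, hg⟩ := (ih j).1 hx
        refine ⟨l, List.mem_cons_of_mem _ (List.mem_flatten.2 ⟨_, ?_, hl⟩), hg⟩
        rw [List.mem_ofFn]
        exact ⟨j, rfl⟩
    · rintro ⟨l, hl, hg⟩
      rcases List.mem_cons.1 hl with rfl | hl
      · exact hv.zero hg _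
      · obtain ⟨u, hu, hlu⟩ := List.mem_flatten.1 hl
        rw [List.mem_ofFn] at hu
        obtain ⟨j, rfl⟩ := hu
        rcases hE i with he | he
        · exact hv.arg (he j) ((ih j).2 ⟨l, hlu, hg⟩)
        · exact hv.zero he _
  | dia φ ih =>
    simp only [eval, word]
    rw [ih]
    constructor
    · rintro ⟨l, hl, hg⟩
      exact ⟨l, List.mem_cons_of_mem _ hl, hg⟩
    · rintro ⟨l, hl, hg⟩
      rcases List.mem_cons.1 hl with rfl | hl
      · exact hg.elim
      · exact ⟨l, hl, hg⟩
  | box φ _ => exact ⟨fun _ => ⟨.box, List.mem_cons_self .., trivial⟩, fun _ => rfl⟩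
  | bind k φ ih =>
    simp only [eval, word]
    rw [ih]
    constructor
    · rintro ⟨l, hl, hg⟩
      exact ⟨l, List.mem_cons_of_mem _ (List.mem_append_right _ hl), hg⟩
    · rintro ⟨l, hl, hg⟩
      rcases List.mem_cons.1 hl with rfl | hl
      · exact hg.elim
      · rcases List.mem_append.1 hl with hl | hl
        · exact absurd hg (number_good B k l hl)
        · exact ⟨l, hl, hg⟩

theorem digits_inj {ι : Type} : ∀ (a b : List Bool) (u v : List (Letter ι)),
    a.map Letter.digit ++ Letter.sep :: u = b.map Letter.digit ++ Letter.sep :: v →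
      a = b ∧ u = v
  | [], [], u, v, h => by
    simp only [List.map_nil, List.nil_append, List.cons.injEq, true_and] at h
    exact ⟨rfl, h⟩
  | [], y :: b, u, v, h => by simp at h
  | x :: a, [], u, v, h => by simp at h
  | x :: a, y :: b, u, v, h => by
    simp only [List.map_cons, List.cons_append, List.cons.injEq, Letter.digit.injEq] at h
    obtain ⟨h1, h2⟩ := digits_inj a b u v h.2
    exact ⟨by rw [h.1, h1], h2⟩

theorem number_inj {ι : Type} {k l : ℕ} {u v : List (Letter ι)}
    (h : number k ++ u = number l ++ v) : k = l ∧ u = v := by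
  unfold number at h
  rw [List.append_assoc, List.append_assoc] at h
  obtain ⟨h1, h2⟩ := digits_inj _ _ u v h
  refine ⟨Nat.digits.injective 2 ?_, h2⟩
  rw [Nat.digits_two_eq_bits, Nat.digits_two_eq_bits, h1]

theorem word_inj_aux {ι : Type} {B : Base ι} : ∀ (φ ψ : Fm B) (u v : List (Letter ι)),
    word φ ++ u = word ψ ++ v → φ = ψ ∧ u = v := by
  intro φ
  induction φ with
  | atom k =>
    intro ψ u v h
    cases ψ with
    | atom l =>
      simp only [word, List.cons_append, List.cons.injEq, true_and] at h
      obtain ⟨rfl, h2⟩ := number_inj h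
      exact ⟨rfl, h2⟩
    | _ => simp [word] at h
  | nom k =>
    intro ψ u v h
    cases ψ with
    | nom l =>
      simp only [word, List.cons_append, List.cons.injEq, true_and] at h
      obtain ⟨rfl, h2⟩ := number_inj h
      exact ⟨rfl, h2⟩
    | _ => simp [word] at h
  | svar k =>
    intro ψ u v h
    cases ψ with
    | svar l =>
      simp only [word, List.cons_append, List.cons.injEq, true_and] at h
      obtain ⟨rfl, h2⟩ := number_inj h
      exact ⟨rfl, h2⟩
    | _ => simp [word] at h
  | app i a ih =>
    intro ψ u v h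
    cases ψ with
    | app i' a' =>
      simp only [word, List.cons_append, List.cons.injEq, Letter.con.injEq] at h
      obtain ⟨rfl, h⟩ := h
      have key : ∀ (n : ℕ) (f f' : Fin n → Fm B),
          (∀ j, ∀ (ψ : Fm B) (u v : List (Letter ι)), word (f j) ++ u = word ψ ++ v →
            f j = ψ ∧ u = v) → ∀ u v : List (Letter ι),
          (List.ofFn fun j => word (f j)).flatten ++ u =
            (List.ofFn fun j => word (f' j)).flatten ++ v → f = f' ∧ u = v := by
        intro n
        induction n with
        | zero =>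
          intro f f' _ u v h
          simp only [List.ofFn_zero, List.flatten_nil, List.nil_append] at h
          exact ⟨funext fun j => absurd j.2 (Nat.not_lt_zero _), h⟩
        | succ n ihn =>
          intro f f' hf u v h
          rw [List.ofFn_succ, List.ofFn_succ, List.flatten_cons, List.flatten_cons,
            List.append_assoc, List.append_assoc] at h
          obtain ⟨h1, h2⟩ := hf 0 (f' 0) _ _ h
          obtain ⟨h3, h4⟩ := ihn (fun j => f j.succ) (fun j => f' j.succ)
            (fun j => hf j.succ) u v h2
          refine ⟨funext fun j => ?_, h4⟩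
          rcases Fin.eq_zero_or_eq_succ j with rfl | ⟨k, rfl⟩
          · exact h1
          · exact congrFun h3 k
      obtain ⟨h1, h2⟩ := key _ a a' ih u v h
      exact ⟨by rw [h1], h2⟩
    | _ => simp [word] at h
  | dia φ ih =>
    intro ψ u v h
    cases ψ with
    | dia ψ =>
      simp only [word, List.cons_append, List.cons.injEq, true_and] at h
      obtain ⟨rfl, h2⟩ := ih ψ u v h
      exact ⟨rfl, h2⟩
    | _ => simp [word] at h
  | box φ ih =>
    intro ψ u v h
    cases ψ with
    | box ψ =>
      simp only [word, List.cons_append, List.cons.injEq, true_and] at h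
      obtain ⟨rfl, h2⟩ := ih ψ u v h
      exact ⟨rfl, h2⟩
    | _ => simp [word] at h
  | bind k φ ih =>
    intro ψ u v h
    cases ψ with
    | bind l ψ =>
      simp only [word, List.cons_append, List.cons.injEq, true_and, List.append_assoc] at h
      obtain ⟨rfl, h2⟩ := number_inj h
      obtain ⟨rfl, h3⟩ := ih ψ u v h2
      exact ⟨rfl, h3⟩
    | _ => simp [word] at h

theorem word_injective {ι : Type} {B : Base ι} :
    Function.Injective (word : Fm B → List (Letter ι)) := by
  intro φ ψ h
  exact (word_inj_aux φ ψ [] [] (by rw [h])).1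

end Pool.Agent.H672.HL

namespace Pool.Agent.Results.MP_ccbe9b_lc.DisjunctiveBinderLogic

open Pool.Agent.H672.HL

open FirstOrder in
/-- **Satisfiability for `({◇, □, ↓}, B)`, `[B] = V`.** -/
theorem result {ι : Type} [Finite ι] (B : Base ι) (hB : IsV B) :
    (∀ 𝔉 : (W : Type) → (W → W → Prop) → Prop, (𝔉 Unit fun _ _ => True) →
      (∀ n : ℕ, 𝔉 (Fin (n + 1)) fun a b => b < a) → ∀ φ : Fm B, SatIn 𝔉 φ ↔ eval φ = true) ∧
    (∀ φ : Fm B, (SAT φ ↔ eval φ = true) ∧ (TransSAT φ ↔ eval φ = true)) ∧
    (∃ θ : (treeLang ι).Sentence, ∀ φ : Fm B, SAT φ ↔ Tree φ ⊨ θ) ∧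
    Function.Injective (word : Fm B → List (Letter ι)) ∧
    ((∀ i, (∀ j, Essential (B.fn i) j) ∨ B.fn i (fun _ => false) = true) →
      ∀ φ : Fm B, SAT φ ↔ ∃ l ∈ word φ, GoodLetter B l) := by
  have h1 : ∀ φ : Fm B, SAT φ ↔ eval φ = true := fun φ =>
    satIn_iff (𝔉 := fun _ _ => True) hB trivial (fun _ => trivial) φ
  have h2 : ∀ φ : Fm B, TransSAT φ ↔ eval φ = true := fun φ =>
    satIn_iff (𝔉 := fun _ R => ∀ x y z, R x y → R y z → R x z) hB (fun _ _ _ _ _ => trivial)
      (fun _ _ _ _ hxy hyz => lt_trans hyz hxy) φ
  obtain ⟨θ, hθ⟩ := exists_sentence B hB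
  exact ⟨fun 𝔉 ha hb φ => satIn_iff hB ha hb φ, fun φ => ⟨h1 φ, h2 φ⟩,
    ⟨θ, fun φ => (h1 φ).trans (hθ φ)⟩, word_injective,
    fun hE φ => (h1 φ).trans (eval_iff_word hB hE φ)⟩

end Pool.Agent.Results.MP_ccbe9b_lc.DisjunctiveBinderLogic
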